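import Pool.Agent.W2helper57.LC.Stm

/-! Piece `S_LB` of the project LC. -/

set_option autoImplicit false

namespace Pool.Agent.W2helper71.LC

open Pool.Agent.NPC Pool.Agent.H620R2.Gauge Pool.Agent.H591R3.PHG Pool.Agent.TH678.GC
  Pool.Agent.Y626.WG Pool.Agent.H676 Pool.Agent.W2helper58.GU Pool.Agent.H622R2.Exp
  Pool.Agent.H622R2 Pool.Agent.W2helper17.GU Pool.Agent.W2helper57.LC
open Pool.Agent.TH678.RS (ev_poly)

theorem all_small (Q : Polynomial ℕ) : ∃ n₀ : ℕ, ∀ u ≥ n₀, Q.eval u < 2 ^ u := by
  obtain ⟨d, _, hd⟩ := YAux.poly_bound Q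
  obtain ⟨n₀, h⟩ := Filter.eventually_atTop.1 (ev_poly (2 ^ d) d)
  refine ⟨n₀ + 1, fun u hu => lt_of_le_of_lt (hd u) (lt_of_le_of_lt ?_ (h u (by omega)))⟩
  rw [← mul_pow]
  exact Nat.pow_le_pow_left (by omega) d

theorem s_LB : S_LB := by
  classical
  intro k M p
  set c₀ : ℕ := 1025 * (k + 1) + 15 with hc₀
  set c₁ : ℕ := 2 * c₀ + 2 with hc₁
  set R : Polynomial ℕ := Polynomial.C c₁ * Polynomial.X + Polynomial.C k *
    (Polynomial.C 2 * p.comp (Polynomial.C c₁ * Polynomial.X) + Polynomial.C 1) with hR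
  obtain ⟨n₁, hn₁⟩ := all_small (M.p.comp R + R + Polynomial.C (2 + k + 2))
  refine ⟨n₁ + c₀, fun n hn B₀ Ψ hΨ => ?_⟩
  have hnc : c₀ ≤ n := le_trans (Nat.le_add_left _ _) hn
  have hc1 : 1 ≤ c₀ := le_trans (by norm_num) (Nat.le_add_left 15 (1025 * (k + 1)))
  have hn1 : 1 ≤ n := le_trans hc1 hnc
  have hQ := hn₁ n (le_trans (Nat.le_add_right _ _) hn)
  have hReval : R.eval n = c₁ * n + k * (2 * p.eval (c₁ * n) + 1) := by
    rw [hR]
    simp only [Polynomial.eval_add, Polynomial.eval_mul, Polynomial.eval_C, Polynomial.eval_X,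
      Polynomial.eval_comp]
  have hQ' : M.p.eval (R.eval n) + R.eval n + (2 + k + 2) < 2 ^ n := by
    simpa only [Polynomial.eval_add, Polynomial.eval_C, Polynomial.eval_comp] using hQ
  have h2u : 2 ^ n ≤ 2 ^ (2 * n) := Nat.pow_le_pow_right (by norm_num) (by omega)
  obtain ⟨as, has1, has2, s, hs⟩ := core k (n := 8 * n) (u := n) (by omega) (le_refl _)
  set xs : Fin (2 ^ (n + 11)) → List Bool := fun j => enc as 1 (bitsOf (n + 11) j.val) with hxs
  set l : ℕ := 2 * as.sum + as.length + 2 * 1 + 1 + (n + 11) with hl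
  have hlen : ∀ j, (xs j).length = l := by
    intro j
    rw [hxs]
    simp only
    rw [enc_len, length_bitsOf]
  have hinj : Function.Injective xs := by
    intro j j' h
    exact Fin.ext (bitsOf_inj j.2 j'.2 (enc_inj as 1 h))
  have hsum : as.sum ≤ (k + 1) * (512 * n) := by
    have h1 := List.sum_le_card_nsmul as (64 * (8 * n)) has2
    rw [has1, smul_eq_mul] at h1
    have h2 : 64 * (8 * n) = 512 * n := by ring
    rw [h2] at h1
    exact h1
  have hl1 : l ≤ c₀ * n := by
    rw [hl, has1, hc₀]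
    nlinarith
  have hl2 : n < l := by rw [hl]; omega
  -- the inputs of the machine
  set ys : Fin (2 ^ (n + 11)) → List Bool := fun j => pairBits (xs j) (List.replicate n true)
    with hys
  set l' : ℕ := 2 * l + 1 + n with hl'
  have hlen' : ∀ j, (ys j).length = l' := by
    intro j
    rw [hys]
    simp only
    rw [length_pairBits, hlen, List.length_replicate]
  have hl1' : l' ≤ c₁ * n := by
    rw [hl', hc₁]
    nlinarith
  set m : ℕ := p.eval l' with hm
  have hm1 : m ≤ p.eval (c₁ * n) := eval_mono p hl1'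
  have hlm : l' + k * (2 * m + 1) ≤ R.eval n := by
    rw [hReval]
    have := Nat.mul_le_mul_left k (show 2 * m + 1 ≤ 2 * p.eval (c₁ * n) + 1 by omega)
    omega
  set O : (Idx (Fin (2 ^ (n + 11))) (pw as) → Bool) → Oracle :=
    fun z => Ψ (Az B₀ n xs as (val s z)) with hO
  have hagree : ∀ ω : Idx (Fin (2 ^ (n + 11))) (pw as) → Bool, ∀ v : List Bool,
      v.length ≤ n → Az B₀ n xs as ω v = B₀ v := fun ω v hv => if_pos hv
  have hsing : ∀ q, Sing (fun z => O z q) := by
    intro q
    rcases hΨ q with ⟨b, hb⟩ | ⟨v, hv⟩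
    · exact Or.inl ⟨b, fun z => hb _ (hagree _)⟩
    · have h1 := sing_Az B₀ B₀ n xs as s (false :: v)
      have h2 : (fun z => O z q) = fun z => join (Az B₀ n xs as (val s z)) B₀ (false :: v) := by
        funext z
        rw [hO]
        simp only
        rw [hv _ (hagree _)]
        rfl
      rw [h2]
      exact h1
  obtain ⟨z, j, hzj⟩ := hs m l' (fun y z => decide (M.out (O z) y = some [true]))
    (fun y hy => by
      have h1 := dtr_run' M O hsing y (M.p.eval y.length) []
      have h3 : M.p.eval y.length ≤ M.p.eval (R.eval n) := eval_mono _ (hy.trans hlm)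
      exact h1.mono (by omega))
    ys (fun j => (hlen' j).le) (real_bound hn1 (by omega))
  refine ⟨Az B₀ n xs as (val s z), hagree _, xs j, ?_, ?_⟩
  · rw [hlen j]
    calc l ≤ c₀ * n := hl1
      _ ≤ n * n := Nat.mul_le_mul_right _ hnc
      _ = n ^ 2 := (sq n).symm
  have h1 : (Quant (p.eval (ys j).length) (acc M (Ψ (Az B₀ n xs as (val s z)))) k true (ys j) ↔
      Tr (pw as) (val s z) j = true) := by
    rw [hlen' j, quant_qf M O m z k true (ys j), hzj]
  have h2 : (xs j ∈ lang k (Az B₀ n xs as (val s z)) ↔ Tr (pw as) (val s z) j = false) := by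
    have h3 := mem_lang_iff (Az B₀ n xs as (val s z)) k as has1 1
      (fun j : Fin (2 ^ (n + 11)) => bitsOf (n + 11) j.val) j
    rw [show xs j = enc as 1 (bitsOf (n + 11) j.val) from rfl, h3]
    have h4 : Tr (1 :: pw as) (leaves (fun j : Fin (2 ^ (n + 11)) =>
        enc as 1 (bitsOf (n + 11) j.val)) as 1 (Az B₀ n xs as (val s z))) j =
        Tr (pw as) (val s z) j := by
      show Tr (pw as) (fun g => decide (∀ i : Fin 1, Az B₀ n xs as (val s z)
        (addr xs as g ++ List.replicate i.val true) = false)) j = _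
      congr 1
      funext g
      have h5 : ∀ i : Fin 1, Az B₀ n xs as (val s z)
          (addr xs as g ++ List.replicate i.val true) = !(val s z g) := by
        intro i
        have : i.val = 0 := by omega
        rw [this, List.replicate_zero, List.append_nil]
        exact Az_addr hinj hlen hl2 as _ g
      simp only [h5]
      cases val s z g <;> simp
    rw [h4]
  intro hcon
  have h3 : Tr (pw as) (val s z) j = false ↔ Tr (pw as) (val s z) j = true := by
    rw [← h1, ← h2]
    exact hcon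
  cases h4 : Tr (pw as) (val s z) j <;> simp [h4] at h3

end Pool.Agent.W2helper71.LC
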